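import Mathlib
import Pool.Agent.H84.ScDefs
import Pool.Agent.H84.ScComp

set_option autoImplicit false

namespace Pool.Agent.Results.MP_50fe75_gt.No

open Pool.Agent.H84.ScDefs

universe u

/-- Every Scott completion of a T0 space is a D-completion. -/
theorem result {X Y : Type u} [TopologicalSpace X] [T0Space X] [TopologicalSpace Y] (i : X → Y)
    (h : IsScottCompletion i) : IsDCompletion i :=
  H84.ScComp.main h

end Pool.Agent.Results.MP_50fe75_gt.No
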